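import Pool.Agent.helper91.ADV.SpecL

set_option autoImplicit false

namespace Pool.Agent.ADV

open Finset Pool.Agent.helper55.NT Pool.Agent.LNB Pool.Agent.NG Pool.Agent.PB Pool.Agent.PC

theorem DIS_push {Ω X : Type} [Fintype Ω] [Fintype X] [DecidableEq X] (p : Ω → ℝ) (f : Ω → X)
    (G : X → ℝ) :
    ∑ x, (∑ ω, if f ω = x then p ω else 0) * G x = ∑ ω, p ω * G (f ω) := by
  simp only [Finset.sum_mul]
  rw [Finset.sum_comm]
  refine Finset.sum_congr rfl fun ω _ => ?_
  rw [Finset.sum_eq_single (f ω)]
  · rw [if_pos rfl]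
  · intro x _ hx
    rw [if_neg (Ne.symm hx), zero_mul]
  · intro h
    exact absurd (Finset.mem_univ _) h

section
variable {n N L : ℕ} (F : (ℕ → Fin N → Bool) → Fin n → Bool) (Dp Dn : (Fin N → Bool) → ℝ)

/-- negative part of the distribution -/
noncomputable def DIS_neg (i : Fin L) (x : Fin n → Bool) : ℝ :=
  ∑ w : Fin L → Fin N → Bool, if F (cut w (i + 1)) = x then wgt Dn w else 0

/-- positive part of the distribution -/
noncomputable def DIS_pos (i : Fin L) (x : Fin n → Bool) : ℝ :=
  ∑ wa : (Fin L → Fin N → Bool) × (Fin N → Bool),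
    if F (cut (Function.update wa.1 i wa.2) (i + 1)) = x then wgt Dn wa.1 * Dp wa.2 else 0

/-- the distribution -/
noncomputable def DIS_D (x : Fin n → Bool) : ℝ :=
  (1 / (2 * (L : ℝ))) * ∑ i : Fin L, (DIS_neg F Dn i x + DIS_pos F Dp Dn i x)

theorem DIS_exp (G : (Fin n → Bool) → ℝ) :
    ∑ x, DIS_D (L := L) F Dp Dn x * G x = (1 / (2 * (L : ℝ))) * ∑ i : Fin L,
      ((∑ w : Fin L → Fin N → Bool, wgt Dn w * G (F (cut w (i + 1)))) +
        ∑ wa : (Fin L → Fin N → Bool) × (Fin N → Bool),
          wgt Dn wa.1 * Dp wa.2 * G (F (cut (Function.update wa.1 i wa.2) (i + 1)))) := by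
  unfold DIS_D
  rw [Finset.sum_congr rfl fun x _ => mul_assoc (1 / (2 * (L : ℝ))) _ (G x), ← Finset.mul_sum]
  refine congrArg (fun t => (1 / (2 * (L : ℝ))) * t) ?_
  simp only [Finset.sum_mul]
  rw [Finset.sum_comm]
  refine Finset.sum_congr rfl fun i _ => ?_
  simp only [add_mul]
  rw [Finset.sum_add_distrib]
  refine congrArg₂ (· + ·) ?_ ?_
  · exact DIS_push (wgt Dn) (fun w : Fin L → Fin N → Bool => F (cut w (i + 1))) G
  · exact DIS_push (fun wa : (Fin L → Fin N → Bool) × (Fin N → Bool) => wgt Dn wa.1 * Dp wa.2)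
      (fun wa => F (cut (Function.update wa.1 i wa.2) (i + 1))) G

end

theorem DIS (h1 : FUB_stmt) : DIS_stmt := by
  intro n N L F Dp Dn f hL hp hn hneg hpos
  obtain ⟨hw0, hw1, _⟩ := h1 N L Dn hn
  have hLr : (0 : ℝ) < (L : ℝ) := by exact_mod_cast hL
  have hwne : ∀ w : Fin L → Fin N → Bool, wgt Dn w ≠ 0 → ∀ j, Dn (w j) ≠ 0 := by
    intro w hw j hj
    exact hw (Finset.prod_eq_zero (Finset.mem_univ j) hj)
  refine ⟨DIS_D (L := L) F Dp Dn, ⟨?_, ?_⟩, ?_⟩
  · intro x
    refine mul_nonneg (by positivity) (Finset.sum_nonneg fun i _ => add_nonneg ?_ ?_)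
    · exact Finset.sum_nonneg fun w _ => by
        split_ifs
        · exact hw0 w
        · exact le_rfl
    · exact Finset.sum_nonneg fun wa _ => by
        split_ifs
        · exact mul_nonneg (hw0 wa.1) (hp.1 wa.2)
        · exact le_rfl
  · have h := DIS_exp (L := L) F Dp Dn (fun _ => 1)
    simp only [mul_one] at h
    rw [h]
    have h2 : ∑ wa : (Fin L → Fin N → Bool) × (Fin N → Bool), wgt Dn wa.1 * Dp wa.2 = 1 := by
      rw [Fintype.sum_prod_type]
      simp only [← Finset.mul_sum, hp.2, mul_one, hw1]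
    rw [hw1, h2]
    simp only [Finset.sum_const, Finset.card_univ, Fintype.card_fin, nsmul_eq_mul]
    field_simp
    norm_num
  · intro g
    classical
    have h := DIS_exp (L := L) F Dp Dn (fun x => if (g x = true ↔ f x) then (1 : ℝ) else 0)
    have ha : agr (DIS_D (L := L) F Dp Dn) f g =
        ∑ x, DIS_D (L := L) F Dp Dn x * (if (g x = true ↔ f x) then (1 : ℝ) else 0) := by
      unfold agr
      refine Finset.sum_congr rfl fun x _ => ?_
      by_cases hx : (g x = true ↔ f x)
      · rw [if_pos hx, if_pos hx, mul_one]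
      · rw [if_neg hx, if_neg hx, mul_zero]
    rw [ha, h]
    have hi : ∀ i : Fin L,
        (∑ w : Fin L → Fin N → Bool, wgt Dn w *
            (if (g (F (cut w (i + 1))) = true ↔ f (F (cut w (i + 1)))) then (1 : ℝ) else 0)) +
          ∑ wa : (Fin L → Fin N → Bool) × (Fin N → Bool), wgt Dn wa.1 * Dp wa.2 *
            (if (g (F (cut (Function.update wa.1 i wa.2) (i + 1))) = true ↔
              f (F (cut (Function.update wa.1 i wa.2) (i + 1)))) then (1 : ℝ) else 0) =
        1 + (pp F Dp Dn g i - qq F Dn g i) := by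
      intro i
      have e1 : (∑ w : Fin L → Fin N → Bool, wgt Dn w *
          (if (g (F (cut w (i + 1))) = true ↔ f (F (cut w (i + 1)))) then (1 : ℝ) else 0)) =
          1 - qq F Dn g i := by
        have hq : 1 - qq F Dn g i = (∑ w : Fin L → Fin N → Bool, wgt Dn w) - qq F Dn g i := by
          rw [hw1]
        rw [hq]
        unfold qq
        rw [← Finset.sum_sub_distrib]
        refine Finset.sum_congr rfl fun w _ => ?_
        by_cases hw : wgt Dn w = 0
        · rw [hw]; ring
        · have hf : ¬ f (F (cut w (i + 1))) := hneg w (hwne w hw) i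
          by_cases hg : g (F (cut w (i + 1))) = true
          · rw [if_neg (fun hc => hf (hc.1 hg)), if_pos hg]; ring
          · rw [if_pos ⟨fun hc => absurd hc hg, fun hc => absurd hc hf⟩, if_neg hg]; ring
      have e2 : ∑ wa : (Fin L → Fin N → Bool) × (Fin N → Bool), wgt Dn wa.1 * Dp wa.2 *
            (if (g (F (cut (Function.update wa.1 i wa.2) (i + 1))) = true ↔
              f (F (cut (Function.update wa.1 i wa.2) (i + 1)))) then (1 : ℝ) else 0) =
          pp F Dp Dn g i := by
        rw [Fintype.sum_prod_type]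
        unfold pp pr
        refine Finset.sum_congr rfl fun w _ => ?_
        rw [Finset.mul_sum]
        refine Finset.sum_congr rfl fun a _ => ?_
        show wgt Dn w * Dp a * _ = _
        by_cases hw : wgt Dn w = 0
        · rw [hw]; ring
        · by_cases hD : Dp a = 0
          · rw [hD]
            simp
          · have hf : f (F (cut (Function.update w i a) (i + 1))) := hpos w i a (hwne w hw) hD
            by_cases hg : g (F (cut (Function.update w i a) (i + 1))) = true
            · rw [if_pos ⟨fun _ => hf, fun _ => hg⟩, if_pos hg]; ring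
            · rw [if_neg (fun hc => hg (hc.2 hf)), if_neg hg]; ring
      rw [e1, e2]; ring
    simp only [hi]
    rw [Finset.sum_add_distrib]
    simp only [Finset.sum_const, Finset.card_univ, Fintype.card_fin, nsmul_eq_mul, mul_one]
    rw [mul_add]
    have h3 : (1 / (2 * (L : ℝ))) * (L : ℝ) = 1 / 2 := by
      field_simp
    rw [h3]

end Pool.Agent.ADV
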